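import Pool.Agent.Helper26.CL.St

/-! # Project CM (MP_65faa7), module Face: the face estimate -/

set_option autoImplicit false

open scoped BigOperators ENNReal
open Pool.LE Pool.NL

namespace Pool.CN

namespace FaceM

/-- the number of points of a face of the box -/
theorem card_face (d n : ℕ) (i : Fin d) :
    ((Bn d n).filter (fun x => x i = 0)).card ≤ n ^ (d - 1) := by
  classical
  have hsub : (Bn d n).filter (fun x => x i = 0) ⊆
      Fintype.piFinset (fun j : Fin d => if j = i then ({0} : Finset ℤ) else Finset.Ico 0 (n : ℤ)) := by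
    intro x hx
    rw [Finset.mem_filter] at hx
    rw [Fintype.mem_piFinset]
    intro j
    have hxB := hx.1
    unfold Bn at hxB
    rw [Fintype.mem_piFinset] at hxB
    by_cases hj : j = i
    · rw [if_pos hj, Finset.mem_singleton, hj]
      exact hx.2
    · rw [if_neg hj]
      exact hxB j
  refine (Finset.card_le_card hsub).trans ?_
  rw [Fintype.card_piFinset]
  have h1 : ∀ j : Fin d, (if j = i then ({0} : Finset ℤ) else Finset.Ico 0 (n : ℤ)).card =
      if j = i then 1 else n := by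
    intro j
    by_cases hj : j = i
    · rw [if_pos hj, if_pos hj, Finset.card_singleton]
    · rw [if_neg hj, if_neg hj, Int.card_Ico]
      simp
  rw [Finset.prod_congr rfl (fun j _ => h1 j), Finset.prod_ite, Finset.prod_const_one, one_mul,
    Finset.prod_const]
  have h2 : (Finset.univ.filter (fun j : Fin d => ¬ j = i)).card = d - 1 := by
    have h3 : Finset.univ.filter (fun j : Fin d => ¬ j = i) = Finset.univ.erase i := by
      ext j
      rw [Finset.mem_filter, Finset.mem_erase]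
      exact ⟨fun h => ⟨h.2, h.1⟩, fun h => ⟨h.2, h.1⟩⟩
    rw [h3, Finset.card_erase_of_mem (Finset.mem_univ i), Finset.card_univ, Fintype.card_fin]
  rw [h2]

/-- domination of the connection probabilities by the lattice two-point function -/
theorem cp_le_tau (hTD : StTauDom) (hTB : StTauBasic) (hB : StBasic) {d : ℕ} {p : ℝ}
    (h0 : 0 ≤ p) (h1 : p ≤ 1) {E : Finset (Sym2 (Zd d))} (hE : (E : Set (Sym2 (Zd d))) ⊆ latE d)
    (x y : Zd d) : cp E p x y ≤ tau d p (y - x) := by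
  have hdom := hTD d p E x y h0 h1 hE
  obtain ⟨-, -, -, hTof, hT01⟩ := hTB d p h0 h1
  obtain ⟨-, -, -, -, -, -, hpr, -⟩ := hB (Zd d) E p h0 h1
  obtain ⟨hp0, hp1, hpE, -⟩ := hpr (fun ω => con ω x y)
  rw [hpE, ← hTof] at hdom
  exact (ENNReal.ofReal_le_ofReal_iff (hT01 _).1).1 hdom

/-- differences between a point of the box and a point of the reflected box -/
theorem sub_mem (hBn : StBn) (hBox : StBox) {d n : ℕ} (i : Fin d) {y z : Zd d}
    (hy : y ∈ Bn d n) (hz : z ∈ (Bn d n).image (rfl' i (-1))) : z - y ∈ bx d (2 * n) := by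
  obtain ⟨-, -, -, hmem, -⟩ := hBn d n
  obtain ⟨-, hbx, -⟩ := hBox d
  obtain ⟨x, hx, rfl⟩ := Finset.mem_image.1 hz
  rw [hbx]
  intro j
  have hyj := (hmem y).1 hy j
  have hxj := (hmem x).1 hx j
  have hval : (rfl' i (-1) x - y) j = (if j = i then -1 - x i else x j) - y j := by
    rw [Pi.sub_apply]
    congr 1
    unfold rfl'
    by_cases hj : j = i
    · subst hj
      rw [Function.update_self, if_pos rfl]
    · rw [Function.update_of_ne hj, if_neg hj]
  rw [hval, abs_le]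
  push_cast
  by_cases hj : j = i
  · subst hj
    rw [if_pos rfl]
    constructor
    · omega
    · omega
  · rw [if_neg hj]
    constructor
    · omega
    · omega

end FaceM

open FaceM in
theorem hFace (hNF1 : StNF1) (hNF2 : StNF2) (hTG2 : StTG2) (hTri : StTri) (hHub : StHub)
    (hTD : StTauDom) (hTB : StTauBasic) (hB : StBasic) (hBn : StBn) (hBox : StBox)
    (hHh : StHh) : StFace := by
  classical
  intro d C₁ B c₀ hEnv n i hn
  have hp0 : 0 ≤ pH d := hEnv.p0.le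
  have hp1 : pH d ≤ 1 := hEnv.p1.trans (by norm_num)
  have hC0 : 0 ≤ C₁ := zero_le_one.trans hEnv.hC
  have hB0 : 0 ≤ B := zero_le_one.trans hEnv.hB
  have hn0 : (0 : ℝ) ≤ n := Nat.cast_nonneg n
  obtain ⟨hFG, hcard, hlat, hmem, -⟩ := hBn d n
  obtain ⟨-, -, -, -, -, -, -, -, hESlat, -⟩ := hBox d
  have hcp0 : ∀ x y, 0 ≤ cp (ES (Bn d n)) (pH d) x y := fun x y =>
    ((hHh _ _ _ _ _ hFG hp0 hp1).2.1 x y).2.1
  obtain ⟨-, -, -, -, hT01⟩ := hTB d (pH d) hp0 hp1
  rw [← hNF1 d n (pH d) i hp0 hp1]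
  refine (hNF2 d n (pH d) i hp0 hp1).trans ?_
  -- the first factor
  have h1 : ∑ y ∈ Bn d n, ∑ z ∈ (Bn d n).image (rfl' i (-1)), cp (ES (B2 d n i)) (pH d) y z ≤
      4 * C₁ * (n : ℝ) ^ (d + 2) := by
    have hy : ∀ y ∈ Bn d n, ∑ z ∈ (Bn d n).image (rfl' i (-1)),
        cp (ES (B2 d n i)) (pH d) y z ≤ 4 * C₁ * (n : ℝ) ^ 2 := by
      intro y hy
      have h2 : ∑ z ∈ (Bn d n).image (rfl' i (-1)), cp (ES (B2 d n i)) (pH d) y z ≤
          ∑ z ∈ (Bn d n).image (rfl' i (-1)), tau d (pH d) (z - y) :=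
        Finset.sum_le_sum fun z _ => cp_le_tau hTD hTB hB hp0 hp1 (hESlat _) y z
      have h3 : ∑ z ∈ (Bn d n).image (rfl' i (-1)), tau d (pH d) (z - y) =
          ∑ w ∈ ((Bn d n).image (rfl' i (-1))).image (fun z => z - y), tau d (pH d) w := by
        symm
        refine Finset.sum_image (f := fun w => tau d (pH d) w) (g := fun z => z - y) ?_
        intro a _ b _ hab
        exact sub_left_injective hab
      have h4 : ∑ w ∈ ((Bn d n).image (rfl' i (-1))).image (fun z => z - y), tau d (pH d) w ≤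
          ∑ w ∈ bx d (2 * n), tau d (pH d) w := by
        refine Finset.sum_le_sum_of_subset_of_nonneg ?_ fun w _ _ => (hT01 w).1
        intro w hw
        obtain ⟨z, hz, rfl⟩ := Finset.mem_image.1 hw
        exact sub_mem hBn hBox i hy hz
      have h5 := hEnv.A1 (2 * n) (by omega)
      push_cast at h5
      calc _ ≤ _ := h2
        _ = _ := h3
        _ ≤ _ := h4
        _ ≤ _ := h5
        _ = 4 * C₁ * (n : ℝ) ^ 2 := by ring
    calc _ ≤ ∑ _y ∈ Bn d n, 4 * C₁ * (n : ℝ) ^ 2 := Finset.sum_le_sum hy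
      _ = 4 * C₁ * (n : ℝ) ^ (d + 2) := by
        rw [Finset.sum_const, hcard, nsmul_eq_mul]
        push_cast
        ring
  -- the second factor
  have h2 : ∀ x ∈ (Bn d n).filter (fun x => x i = 0),
      ∑ x' ∈ (Bn d n).filter (fun x => x i = 0),
        (ex (ES (Bn d n)) (pH d) (fun ω => (Xc (Bn d n) ω x : ℝ) * ind (con ω x x'))) ^ 2 ≤
      (C₁ * (n : ℝ) ^ 2) ^ 2 * B := by
    intro x hx
    have hxB : x ∈ Bn d n := (Finset.mem_filter.1 hx).1
    have h3 : ∀ x' ∈ Bn d n,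
        (ex (ES (Bn d n)) (pH d) (fun ω => (Xc (Bn d n) ω x : ℝ) * ind (con ω x x'))) ^ 2 ≤
        (C₁ * (n : ℝ) ^ 2) ^ 2 * (∑ z ∈ Bn d n, cp (ES (Bn d n)) (pH d) x z *
          cp (ES (Bn d n)) (pH d) z x') ^ 2 := by
      intro x' hx'
      have h4 := hTG2 (Zd d) (Bn d n) (ES (Bn d n)) (2 * d) (pH d) hFG hp0 hEnv.p1 x hxB x' hx'
      have h5 : ∑ z ∈ Bn d n, cp (ES (Bn d n)) (pH d) x z * cp (ES (Bn d n)) (pH d) z x' *
          hh (Bn d n) (ES (Bn d n)) (pH d) z ≤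
          C₁ * (n : ℝ) ^ 2 * ∑ z ∈ Bn d n, cp (ES (Bn d n)) (pH d) x z *
            cp (ES (Bn d n)) (pH d) z x' := by
        rw [Finset.mul_sum]
        refine Finset.sum_le_sum fun z hz => ?_
        rw [mul_comm]
        exact mul_le_mul_of_nonneg_right (hHub d C₁ B c₀ hEnv n hn z hz)
          (mul_nonneg (hcp0 _ _) (hcp0 _ _))
      have h6 : 0 ≤ ex (ES (Bn d n)) (pH d)
          (fun ω => (Xc (Bn d n) ω x : ℝ) * ind (con ω x x')) := by
        obtain ⟨hmono, hconst, -⟩ := hB (Zd d) (ES (Bn d n)) (pH d) hp0 hp1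
        rw [← hconst 0]
        refine hmono _ _ fun ω _ => mul_nonneg (Nat.cast_nonneg _) ?_
        unfold ind
        split_ifs
        · exact zero_le_one
        · exact le_refl _
      rw [← mul_pow]
      exact pow_le_pow_left₀ h6 (h4.trans h5) 2
    calc _ ≤ ∑ x' ∈ Bn d n,
        (ex (ES (Bn d n)) (pH d) (fun ω => (Xc (Bn d n) ω x : ℝ) * ind (con ω x x'))) ^ 2 :=
          Finset.sum_le_sum_of_subset_of_nonneg (Finset.filter_subset _ _)
            fun _ _ _ => sq_nonneg _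
      _ ≤ ∑ x' ∈ Bn d n, (C₁ * (n : ℝ) ^ 2) ^ 2 * (∑ z ∈ Bn d n,
            cp (ES (Bn d n)) (pH d) x z * cp (ES (Bn d n)) (pH d) z x') ^ 2 :=
          Finset.sum_le_sum h3
      _ = (C₁ * (n : ℝ) ^ 2) ^ 2 * ∑ x' ∈ Bn d n, (∑ z ∈ Bn d n,
            cp (ES (Bn d n)) (pH d) x z * cp (ES (Bn d n)) (pH d) z x') ^ 2 := by
          rw [Finset.mul_sum]
      _ ≤ (C₁ * (n : ℝ) ^ 2) ^ 2 * B :=
          mul_le_mul_of_nonneg_left ((hTri d C₁ B c₀ hEnv n hn).2 x hxB) (sq_nonneg _)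
  have h3 : ∑ x ∈ (Bn d n).filter (fun x => x i = 0),
      ∑ x' ∈ (Bn d n).filter (fun x => x i = 0),
        (ex (ES (Bn d n)) (pH d) (fun ω => (Xc (Bn d n) ω x : ℝ) * ind (con ω x x'))) ^ 2 ≤
      (n : ℝ) ^ (d - 1) * ((C₁ * (n : ℝ) ^ 2) ^ 2 * B) := by
    calc _ ≤ ∑ _x ∈ (Bn d n).filter (fun x => x i = 0), (C₁ * (n : ℝ) ^ 2) ^ 2 * B :=
          Finset.sum_le_sum h2
      _ = (((Bn d n).filter (fun x => x i = 0)).card : ℝ) * ((C₁ * (n : ℝ) ^ 2) ^ 2 * B) := by
          rw [Finset.sum_const, nsmul_eq_mul]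
      _ ≤ (n : ℝ) ^ (d - 1) * ((C₁ * (n : ℝ) ^ 2) ^ 2 * B) := by
          refine mul_le_mul_of_nonneg_right ?_ (mul_nonneg (sq_nonneg _) hB0)
          exact_mod_cast card_face d n i
  have h4 : 0 ≤ ∑ x ∈ (Bn d n).filter (fun x => x i = 0),
      ∑ x' ∈ (Bn d n).filter (fun x => x i = 0),
        (ex (ES (Bn d n)) (pH d) (fun ω => (Xc (Bn d n) ω x : ℝ) * ind (con ω x x'))) ^ 2 :=
    Finset.sum_nonneg fun _ _ => Finset.sum_nonneg fun _ _ => sq_nonneg _
  have hd : 1 ≤ d := le_trans (by norm_num) hEnv.hd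
  calc _ ≤ 4 * C₁ * (n : ℝ) ^ (d + 2) * ((n : ℝ) ^ (d - 1) * ((C₁ * (n : ℝ) ^ 2) ^ 2 * B)) :=
        mul_le_mul h1 h3 h4 (mul_nonneg (mul_nonneg (by norm_num) hC0) (pow_nonneg hn0 _))
    _ = 4 * C₁ ^ 3 * B * ((n : ℝ) ^ (d + 2) * (n : ℝ) ^ (d - 1) * (n : ℝ) ^ 4) := by ring
    _ = 4 * C₁ ^ 3 * B * (n : ℝ) ^ (2 * d + 5) := by
        rw [← pow_add, ← pow_add]
        congr 2
        omega

end Pool.CN
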