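import Pool.Agent.Helper32.CL.St4

set_option autoImplicit false

namespace Pool.Agent.Helper13.CL

open Helper32.CL Helper35.PI Helper35.PI2

private lemma inner_sq_le {N : ℕ} (x y : EE N) :
    (inner ℝ x y : ℝ) ^ 2 ≤ ‖x‖ ^ 2 * ‖y‖ ^ 2 := by
  rw [← mul_pow, ← sq_abs (inner ℝ x y)]
  exact pow_le_pow_left₀ (abs_nonneg _) (abs_real_inner_le_norm x y) 2

private lemma inner_mul_le {N : ℕ} (x y z w : EE N) :
    2 * |(inner ℝ x y : ℝ) * inner ℝ z w| ≤ ‖x‖ ^ 2 * ‖z‖ ^ 2 + ‖y‖ ^ 2 * ‖w‖ ^ 2 := by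
  rw [abs_mul]
  have h1 := abs_real_inner_le_norm x y
  have h2 := abs_real_inner_le_norm z w
  have h3 : |(inner ℝ x y : ℝ)| * |(inner ℝ z w : ℝ)| ≤ (‖x‖ * ‖y‖) * (‖z‖ * ‖w‖) :=
    mul_le_mul h1 h2 (abs_nonneg _) (by positivity)
  nlinarith [sq_nonneg (‖x‖ * ‖z‖ - ‖y‖ * ‖w‖)]

private lemma part1 (n N : ℕ) (A : Fin n → Fin n → EE N) (W : EE N) :
    ∑ i, ∑ j, (inner ℝ (A i j) W : ℝ) ^ 2 ≤ XX A * ‖W‖ ^ 2 := by
  unfold XX
  rw [Finset.sum_mul]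
  refine Finset.sum_le_sum fun i _ => ?_
  rw [Finset.sum_mul]
  exact Finset.sum_le_sum fun j _ => inner_sq_le _ _

private lemma inner_mul_le' {N : ℕ} (x y z w : EE N) :
    2 * |(inner ℝ x y : ℝ) * inner ℝ z w| ≤ ‖x‖ ^ 2 * ‖y‖ ^ 2 + ‖z‖ ^ 2 * ‖w‖ ^ 2 := by
  rw [abs_mul]
  have h1 := abs_real_inner_le_norm x y
  have h2 := abs_real_inner_le_norm z w
  have h3 : |(inner ℝ x y : ℝ)| * |(inner ℝ z w : ℝ)| ≤ (‖x‖ * ‖y‖) * (‖z‖ * ‖w‖) :=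
    mul_le_mul h1 h2 (abs_nonneg _) (by positivity)
  nlinarith [sq_nonneg (‖x‖ * ‖y‖ - ‖z‖ * ‖w‖)]

private lemma Sq_le {N : ℕ} (A : Fin 2 → Fin 2 → EE N) : Sq A ≤ 5 * XX A ^ 2 := by
  have h : ∀ i j k l : Fin 2, (inner ℝ (A i j) (A k l) : ℝ) ^ 2
      + 2 * (inner ℝ (A i j) (A j k) * inner ℝ (A k l) (A l i)
        - inner ℝ (A i j) (A k l) * inner ℝ (A j k) (A l i)) ≤
      3 * (‖A i j‖ ^ 2 * ‖A k l‖ ^ 2) + 2 * (‖A j k‖ ^ 2 * ‖A l i‖ ^ 2) := by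
    intro i j k l
    have h1 := inner_sq_le (A i j) (A k l)
    have h2 := inner_mul_le (A i j) (A j k) (A k l) (A l i)
    have h3 := inner_mul_le' (A i j) (A k l) (A j k) (A l i)
    have h4 := le_abs_self ((inner ℝ (A i j) (A j k) : ℝ) * inner ℝ (A k l) (A l i))
    have h5 := neg_abs_le ((inner ℝ (A i j) (A k l) : ℝ) * inner ℝ (A j k) (A l i))
    linarith
  calc Sq A ≤ ∑ i, ∑ j, ∑ k, ∑ l,
        (3 * (‖A i j‖ ^ 2 * ‖A k l‖ ^ 2) + 2 * (‖A j k‖ ^ 2 * ‖A l i‖ ^ 2)) := by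
        unfold Sq
        exact Finset.sum_le_sum fun i _ => Finset.sum_le_sum fun j _ =>
          Finset.sum_le_sum fun k _ => Finset.sum_le_sum fun l _ => h i j k l
    _ = 5 * XX A ^ 2 := by
        unfold XX
        simp only [Fin.sum_univ_two]
        ring

private lemma part2 (N : ℕ) (A : Fin 2 → Fin 2 → EE N) (T : Fin 2 → Fin 2 → Fin 2 → EE N) :
    tq T ≤ 5 * XX A ^ 2 - hX A T / 2 := by
  have h := Sq_le A
  unfold hX tq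
  linarith

private lemma part3 (N : ℕ) (A : Fin 2 → Fin 2 → EE N) (hA : SymV A) :
    2 * ZZ A - 2 * AAH A = YY A * (YY A - XX A) := by
  have h10 : A 1 0 = A 0 1 := hA 1 0
  unfold ZZ AAH YY XX zz Hv
  simp only [Fin.sum_univ_two, h10, ← real_inner_self_eq_norm_sq, inner_add_right,
    inner_add_left]
  rw [real_inner_comm (A 0 0) (A 1 1), real_inner_comm (A 0 0) (A 0 1),
    real_inner_comm (A 0 1) (A 1 1)]
  ring

theorem hSQ : StSQ :=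
  ⟨part1, fun N A T _ => part2 N A T, part3⟩

end Pool.Agent.Helper13.CL
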